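import Mathlib
import Pool.Agent.Helper71.SubDefs
import Pool.Agent.Helper71.SubFinal

set_option autoImplicit false

/-!
# Problem MP_30d570_lc: testing submodularity needs more than `poly(n/ε)` queries

We construct one range `R ⊆ ℕ` for which the query complexity of testing submodularity of
functions `{0,1}^n → R` is not bounded by a polynomial in `n/ε`. The definitions are in
`Pool.Agent.Helper71.SubDefs`; `Pool.Agent.Helper71.Sub.testable_all` is a sanity check (asking
all `2^n` values is a tester).

Idea of the proof. Let `x` be a vector over `F_2` of length `2^(B^2)` and let `A` be a random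
matrix with `2^(B^2-B)` rows. We define `f_x = W * F + C * G + y_x` on a cube with
`n = 3B^2 + 7B + 6` coordinates, which are divided into `4B` components of size at most `B + 8`.

* `F` is a separable function which is strictly submodular inside of every component and from
  whose value a point (with no empty and no full component) can be read off. If a submodular `g`
  agrees with `f_x` outside of a small set then `g` is close to `W * F` everywhere (coarse
  rigidity, because `F` vanishes at the bottom and at the top of every component). Hence, as
  every value of `g` is a value of some `f_x'`, at every such point `S` we have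
  `g(S) = f_x'(S)` for some `x'` depending on `S`.
* `G` makes almost all squares with directions in two different components strictly submodular
  in a controlled way; the remaining squares are used as gates of a circuit. The value `y_x` at a
  point is constant, or an entry of `x`, or a partial parity of a row of `A` in an evaluation
  tree; two rails carry the values and their complements, and submodularity at the squares says
  that all equality and XOR gates are correct, i.e. that `A x = 0`.

Thus `f_x` is submodular if `A x = 0`, and far from all submodular functions with values in the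
range if `x` is far from the kernel of `A`. For a random sparse-free matrix `A` a vector `x` with
`A x = e_i` for a random `i` looks like a random vector in the kernel of `A` to every adaptive
algorithm with less than `2^(B^2-B)/3` queries.
-/

namespace Pool.Agent.Results.MP_30d570_lc.NoPolynomialBound

open Pool.Agent.Helper71.Sub

/-- There is a set `R` of natural numbers such that

* for every polynomial `p` there are `n` and `ε ∈ (0,1)` such that every tester for submodularity
  of functions `{0,1}^n → R` with parameter `ε` makes more than `p(n/ε)` queries;
* quantitatively, for every `B ≥ 10` there is a finite `R₀ ⊆ R` such that for every `R'` with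
  `R₀ ⊆ R' ⊆ R`, all `n ≥ 3B^2 + 7B + 6` and all `0 < ε ≤ 2^(-20B)`, every tester for
  submodularity of functions `{0,1}^n → R'` with parameter `ε` makes more than
  `2^(B(B-1)) / 3` queries. -/
theorem result :
    ∃ R : Set ℝ, R ⊆ Set.range (Nat.cast : ℕ → ℝ) ∧
      (∀ p : Polynomial ℝ, ∃ (n : ℕ) (ε : ℝ), 0 < ε ∧ ε < 1 ∧
        ∀ q : ℕ, Testable R n ε q → p.eval ((n : ℝ) / ε) < q) ∧
      (∀ B : ℕ, 10 ≤ B → ∃ R₀ : Set ℝ, R₀ ⊆ R ∧ R₀.Finite ∧ ∀ R' : Set ℝ, R₀ ⊆ R' → R' ⊆ R →
        ∀ n : ℕ, 3 * B ^ 2 + 7 * B + 6 ≤ n → ∀ ε : ℝ, 0 < ε → ε ≤ 1 / 2 ^ (20 * B) →
        ∀ q : ℕ, Testable R' n ε q → 2 ^ (B * (B - 1)) < 3 * q) := by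
  refine ⟨RR, RR_nat, ?_, ?_⟩
  · intro p
    obtain ⟨n, ε, h0, h1, h⟩ := no_poly p
    refine ⟨n, ε, h0, h1, ?_⟩
    rintro q ⟨Ω, _, P, _, T, hT, hq⟩
    exact h Ω P T hT q hq
  · intro B hB
    obtain ⟨R₀, h1, h2, h3⟩ := bound_between B hB
    refine ⟨R₀, h1, h2, ?_⟩
    rintro R' hR1 hR2 n hn ε _ hε q ⟨Ω, _, P, _, T, hT, hq⟩
    refine h3 R' hR1 hR2 n hn ε ?_ Ω P T hT q hq
    have h4 : (0 : ℝ) < 2 ^ (20 * B) := by positivity
    exact (le_div_iff₀ h4).1 hε

end Pool.Agent.Results.MP_30d570_lc.NoPolynomialBound
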